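import Mathlib

set_option autoImplicit false
open Set Filter Topology
open scoped RealInnerProductSpace

namespace Pool.Agent.Results.MP_d7bb9e_an.Counter

/-- Euclidean space. -/
abbrev E (n : ℕ) := EuclideanSpace ℝ (Fin n)

variable {n : ℕ}

/-- Levels `q ≥ inf f` such that all truncations `max r f`, `r ≥ q`, are convex. -/
def Levels (f : E n → ℝ) : Set ℝ :=
  {q | (⨅ x, (f x : EReal)) ≤ q ∧ ∀ r ≥ q, ConvexOn ℝ univ fun x => max r (f x)}

/-- The smallest convexity level. -/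
noncomputable def scl (f : E n → ℝ) : ℝ := sInf (Levels f)

/-- The Hessian, as the derivative of the gradient. -/
noncomputable def Hess (f : E n → ℝ) (x : E n) : E n →L[ℝ] E n := fderiv ℝ (gradient f) x

/-- Points where the Hessian is positive definite. -/
def HessPos (f : E n → ℝ) : Set (E n) := {x | ∀ v, v ≠ 0 → 0 < ⟪Hess f x v, v⟫}

/-- The critical set. -/
def Crit (f : E n → ℝ) : Set (E n) := {x | gradient f x = 0}

/-- The hypotheses (H). -/
structure H (f : E n → ℝ) : Prop where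
  smooth : ContDiff ℝ 2 f
  morse : ∀ x ∈ Crit f, Function.Injective (Hess f x)
  nonconvex : ¬ ConvexOn ℝ univ f
  truncated : (Levels f).Nonempty
  image : scl f ∈ range f
  regular : ∀ x, f x = scl f → x ∉ Crit f
  pos : {x | scl f < f x} ⊆ HessPos f

/-- The valence of the gradient. -/
noncomputable def Val (f : E n → ℝ) : ℕ∞ := ⨆ y, (gradient f ⁻¹' {y}).encard

/-- radial profile -/
def ψ (t : ℝ) : ℝ := 2 * t ^ 6 - 25 * t ^ 4 + 120 * t ^ 2

/-- the example -/
noncomputable def f (x : E n) : ℝ := 2 * (‖x‖ ^ 2) ^ 3 - 25 * (‖x‖ ^ 2) ^ 2 + 120 * ‖x‖ ^ 2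

theorem f_eq (x : E n) : f x = ψ ‖x‖ := by unfold f ψ; ring

theorem grad : gradient (f (n := n)) = fun x =>
    (12 * (‖x‖ ^ 2) ^ 2 - 100 * ‖x‖ ^ 2 + 240) • x := by
  funext x
  have h := (hasStrictFDerivAt_norm_sq x).hasFDerivAt
  refine HasGradientAt.gradient (hasGradientAt_iff_hasFDerivAt.2 ?_)
  refine ((((h.pow 3).const_mul 2).sub ((h.pow 2).const_mul 25)).add (h.const_mul 120)).congr_fderiv ?_
  ext v
  simp
  ring

theorem hess (x v : E n) : Hess f x v = (12 * (‖x‖ ^ 2) ^ 2 - 100 * ‖x‖ ^ 2 + 240) • v +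
    ((48 * ‖x‖ ^ 2 - 200) * ⟪x, v⟫) • x := by
  have h := (hasStrictFDerivAt_norm_sq x).hasFDerivAt
  have := ((((h.pow 2).const_mul 12).fun_sub (h.const_mul 100)).add_const 240).fun_smul
    (hasFDerivAt_id x)
  simp only [id] at this
  rw [Hess, grad, this.fderiv]
  simp
  congr 1
  ring

theorem pos {x : E n} (h : ‖x‖ ^ 2 < 1 ∨ 4 < ‖x‖ ^ 2) : x ∈ HessPos f := fun v hv => by
  have a := mul_pos (norm_pos_iff.2 hv) (norm_pos_iff.2 hv)
  have b := real_inner_mul_inner_self_le x v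
  rw [hess, inner_add_left, inner_smul_left, inner_smul_left, real_inner_self_eq_norm_sq] at *
  simp only [conj_trivial, real_inner_self_eq_norm_sq] at *
  rw [← sq] at a
  have s0 := sq_nonneg ‖x‖
  generalize ‖x‖ ^ 2 = s at *
  generalize ‖v‖ ^ 2 = w at *
  have c : 0 < (s - 1) * (s - 4) := by rcases h with h | h <;> nlinarith
  by_cases e : 0 ≤ 48 * s - 200
  · nlinarith [mul_nonneg e (mul_self_nonneg ⟪x, v⟫), mul_pos a (show 0 < 12 * s ^ 2 - 100 * s + 240 by
      nlinarith [sq_nonneg (s - 25 / 6)])]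
  · nlinarith [mul_le_mul_of_nonpos_left b (not_le.1 e).le, mul_pos a c]

theorem crit : Crit (f (n := n)) = {0} := by
  ext x
  simp only [Crit, grad, mem_ofPred_eq, smul_eq_zero, mem_singleton_iff, or_iff_right_iff_imp]
  exact fun h => by nlinarith [sq_nonneg (‖x‖ ^ 2 - 25 / 6)]

theorem d1 : deriv ψ = fun t => 12 * t ^ 5 - 100 * t ^ 3 + 240 * t := by
  funext t
  unfold ψ
  simp (disch := fun_prop) [deriv_fun_add, deriv_fun_sub]
  ring

theorem d2 (t : ℝ) : deriv^[2] ψ t = 60 * ((t ^ 2 - 1) * (t ^ 2 - 4)) := by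
  simp only [Function.iterate_succ, Function.iterate_zero, Function.comp, id, d1]
  simp (disch := fun_prop) [deriv_fun_add, deriv_fun_sub]
  ring

theorem cψ : Continuous ψ := by unfold ψ; fun_prop

theorem mono : StrictMonoOn ψ (Ici 0) := strictMonoOn_of_deriv_pos (convex_Ici 0) cψ.continuousOn
  fun t ht => by
    rw [interior_Ici] at ht
    have : 0 < t := ht
    rw [d1]
    nlinarith [mul_pos this (show 0 < 12 * t ^ 4 - 100 * t ^ 2 + 240 by
      nlinarith [sq_nonneg (t ^ 2 - 25 / 6)])]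

theorem cvx : ConvexOn ℝ (Ici 2) ψ := (strictConvexOn_of_deriv2_pos (convex_Ici 2) cψ.continuousOn
  fun t ht => by
    rw [interior_Ici] at ht
    have : 2 < t := ht
    rw [d2]
    exact mul_pos (by norm_num) (mul_pos (by nlinarith) (by nlinarith))).convexOn

theorem ccv : StrictConcaveOn ℝ (Icc 1 2) ψ := strictConcaveOn_of_deriv2_neg (convex_Icc 1 2)
  cψ.continuousOn fun t ht => by
    rw [interior_Icc] at ht
    rw [d2]
    exact mul_neg_of_pos_of_neg (by norm_num) (mul_neg_of_pos_of_neg (by nlinarith [ht.1])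
      (by nlinarith [ht.1, ht.2]))

theorem trunc {r : ℝ} (hr : ψ 2 ≤ r) : ConvexOn ℝ univ fun x : E n => max r (f x) := by
  have e : ∀ x : E n, max r (f x) = max r (ψ (max 2 ‖x‖)) := fun x => by
    rw [f_eq]
    rcases le_total 2 ‖x‖ with h | h
    · rw [max_eq_right h]
    · rw [max_eq_left h, max_eq_left hr, max_eq_left ((mono.monotoneOn (norm_nonneg x) (by simp) h).trans hr)]
  simp only [e]
  refine (convexOn_const r convex_univ).sup ⟨convex_univ, fun x _ y _ a b ha hb hab => ?_⟩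
  have c := ((convexOn_const (2 : ℝ) convex_univ).sup convexOn_univ_norm).2 (mem_univ x) (mem_univ y)
    ha hb hab
  have m : ∀ z : E n, max 2 ‖z‖ ∈ Ici (2 : ℝ) := fun z => mem_Ici.2 (le_max_left _ _)
  have z : Ici (2 : ℝ) ⊆ Ici 0 := Ici_subset_Ici.2 zero_le_two
  exact (mono.monotoneOn (z (m _)) (z ((convex_Ici 2) (m x) (m y) ha hb hab)) c).trans
    (cvx.2 (m x) (m y) ha hb hab)

theorem notc (e : E n) (he : ‖e‖ = 1) {r : ℝ} (hr : r < ψ 2) :
    ¬ ConvexOn ℝ univ fun x : E n => max r (f x) := fun h => by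
  obtain ⟨t, ht, t1, t2⟩ := (((cψ.tendsto 2).eventually_const_lt hr).filter_mono
    nhdsWithin_le_nhds |>.and (Ioo_mem_nhdsLT (one_lt_two (α := ℝ)))).exists
  have a := h.2 (mem_univ (t • e)) (mem_univ ((2 : ℝ) • e)) one_half_pos.le one_half_pos.le
    (add_halves 1)
  have b := ccv.2 ⟨t1.le, t2.le⟩ ⟨one_le_two, le_rfl⟩ t2.ne one_half_pos one_half_pos (add_halves 1)
  simp only [smul_smul, ← add_smul, f_eq, norm_smul, he, mul_one, smul_eq_mul, Real.norm_eq_abs] at a b
  rw [abs_of_pos (by linarith), abs_of_pos (by linarith), abs_two, max_eq_right ht.le,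
    max_eq_right hr.le] at a
  linarith [le_max_right r (ψ (1 / 2 * t + 1 / 2 * 2))]

theorem result (n : ℕ) (hn : 1 ≤ n) : ∃ f : E n → ℝ, H f ∧ Val f ≠ (Crit f).encard ∧
    (Crit f).encard ≠ ENat.card (ConnectedComponents ↥(HessPos f \ {x | scl f < f x})) + 1 := by
  obtain ⟨e, he⟩ : ∃ e : E n, ‖e‖ = 1 := ⟨EuclideanSpace.single ⟨0, hn⟩ 1, by simp⟩
  have p2 : ψ 2 = 208 := by norm_num [ψ]
  have L : Levels (f (n := n)) = Ici (ψ 2) := by
    ext q
    refine ⟨fun h => not_lt.1 fun hq => notc e he hq (h.2 q le_rfl), fun h =>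
      ⟨(iInf_le _ 0).trans ?_, fun r hr => trunc (le_trans h hr)⟩⟩
    have : (208 : ℝ) ≤ q := p2 ▸ h
    exact EReal.coe_le_coe_iff.2 (by simp [f]; linarith)
  have S : scl (f (n := n)) = ψ 2 := by rw [scl, L, csInf_Ici]
  have f0 : f (0 : E n) = 0 := by simp [f]
  refine ⟨f, ⟨?_, fun x hx => ?_, fun h => notc e he (r := 0) (by norm_num [p2]) ?_,
    L ▸ nonempty_Ici, ⟨(2 : ℝ) • e, by simp [S, f_eq, norm_smul, he]⟩, fun x hx h => ?_,
    fun x hx => pos (Or.inr ?_)⟩, ?_, ?_⟩
  · have := contDiff_norm_sq ℝ (E := E n) (n := 2)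
    exact ((contDiff_const.mul (this.pow 3)).sub (contDiff_const.mul (this.pow 2))).add
      (contDiff_const.mul this)
  · rw [crit] at hx
    refine (injective_iff_map_eq_zero _).2 fun v hv => by_contra fun h => ?_
    simpa [hv] using pos (x := x) (Or.inl (by simp [show x = 0 from hx])) v h
  · exact (convexOn_const 0 convex_univ).sup h
  · rw [crit] at h
    rw [show x = 0 from h, f0, S, p2] at hx
    norm_num at hx
  · have : ψ 2 < ψ ‖x‖ := by simpa [S, f_eq] using hx
    have := (mono.lt_iff_lt (by simp) (norm_nonneg x)).1 this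
    nlinarith
  · obtain ⟨t, ht, e1⟩ := intermediate_value_Icc (f := fun t : ℝ => (12 * (t ^ 2) ^ 2 - 100 * t ^ 2
      + 240) * t) (a := 0) (b := 1) zero_le_one (by fun_prop) (show (64 : ℝ) ∈ _ by norm_num)
    rw [crit, encard_singleton]
    refine (lt_of_lt_of_le (one_lt_encard_iff.2 ⟨t • e, (2 : ℝ) • e, ?_, ?_, fun h => ?_⟩)
      (le_iSup (fun y => (gradient (f (n := n)) ⁻¹' {y}).encard) ((64 : ℝ) • e))).ne'
    · simp only [grad, mem_preimage, mem_singleton_iff, norm_smul, he, mul_one, smul_smul,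
        Real.norm_eq_abs, sq_abs, ← e1]
    · simp only [grad, mem_preimage, mem_singleton_iff, norm_smul, he, mul_one, smul_smul,
        Real.norm_eq_abs, sq_abs]
      norm_num
    · have := congrArg norm h
      simp only [norm_smul, he, mul_one, Real.norm_eq_abs, abs_of_nonneg ht.1, abs_two] at this
      linarith [ht.2]
  · have : Nonempty ↥(HessPos (f (n := n)) \ {x | scl f < f x}) :=
      ⟨0, pos (Or.inl (by simp)), by rw [mem_ofPred_eq, S, f0, p2]; norm_num⟩
    rw [crit, encard_singleton]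
    intro h
    refine absurd h (ne_of_lt (lt_of_lt_of_le (show (1 : ℕ∞) < 1 + 1 by decide) ?_))
    exact add_le_add_left (Order.one_le_iff_pos.2 ENat.card_pos) 1

end Pool.Agent.Results.MP_d7bb9e_an.Counter
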